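import Pool.Agent.X224.BD.Basic

/-!
# Generic orbits: every Borel colouring with countably many colours is preserved by a nontrivial
automorphism of some component
-/

open Set Topology Filter

namespace Pool.Agent.X224.BD

/-! ### Back and forth -/

section BF

variable {I : Type*} (x : Y) (col : ℤ → I)

/-- Finite partial isomorphisms of the coloured graph. -/
def PIso : Type := {f : Finset (ℤ × ℤ) // ∀ p ∈ f, ∀ q ∈ f,
  (p.1 = q.1 ↔ p.2 = q.2) ∧ (p.1 ≠ q.1 → (x s(p.1, q.1) = x s(p.2, q.2))) ∧ col p.1 = col p.2}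

instance : PartialOrder (PIso x col) := inferInstanceAs (PartialOrder (Subtype _))

/-- The coloured extension property. -/
def ColExt : Prop := ∀ (m : ℤ) (F A : Finset ℤ),
  ∃ n, n ∉ F ∧ col n = col m ∧ ∀ z ∈ F, (x s(z, n) = true ↔ z ∈ A)

variable {x col}

lemma ColExt.ext (h : ColExt x col) (m : ℤ) (F : Finset ℤ) (t : ℤ → Bool) :
    ∃ n, n ∉ F ∧ col n = col m ∧ ∀ z ∈ F, x s(z, n) = t z := by
  classical
  obtain ⟨n, hn, hc, hF⟩ := h m F (F.filter (fun z => t z = true))
  refine ⟨n, hn, hc, fun z hz => ?_⟩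
  have := hF z hz
  rw [Finset.mem_filter] at this
  rw [Bool.eq_iff_iff]
  tauto

lemma forth (h : ColExt x col) (f : PIso x col) (a : ℤ) : ∃ g : PIso x col, f ≤ g ∧
    ∃ b, (a, b) ∈ g.1 := by
  classical
  by_cases ha : ∃ b, (a, b) ∈ f.1
  · exact ⟨f, le_rfl, ha⟩
  push Not at ha
  -- the transported requirement
  obtain ⟨b, hb, hc, hF⟩ := h.ext a (f.1.image Prod.snd)
    (fun z => if hz : ∃ p ∈ f.1, p.2 = z then x s(hz.choose.1, a) else false)
  have hF' : ∀ p ∈ f.1, x s(p.2, b) = x s(p.1, a) := by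
    intro p hp
    rw [hF p.2 (Finset.mem_image_of_mem _ hp)]
    have hz : ∃ q ∈ f.1, q.2 = p.2 := ⟨p, hp, rfl⟩
    rw [dif_pos hz]
    have := hz.choose_spec
    rw [((f.2 _ this.1 p hp).1).2 this.2]
  have hb' : ∀ p ∈ f.1, p.2 ≠ b := by
    intro p hp hpb
    exact hb (hpb ▸ Finset.mem_image_of_mem _ hp)
  have ha' : ∀ p ∈ f.1, p.1 ≠ a := by
    intro p hp hpa
    exact ha p.2 (by rw [← hpa]; exact hp)
  refine ⟨⟨insert (a, b) f.1, ?_⟩, ?_, b, Finset.mem_insert_self _ _⟩
  · intro p hp q hq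
    rw [Finset.mem_insert] at hp hq
    rcases hp with rfl | hp <;> rcases hq with rfl | hq
    · exact ⟨by simp, by simp, hc.symm⟩
    · refine ⟨⟨fun e => absurd e.symm (ha' q hq), fun e => absurd e.symm (hb' q hq)⟩,
        fun _ => ?_, hc.symm⟩
      rw [Sym2.eq_swap, ← hF' q hq, Sym2.eq_swap]
    · refine ⟨⟨fun e => absurd e (ha' p hp), fun e => absurd e (hb' p hp)⟩,
        fun _ => (hF' p hp).symm, (f.2 p hp p hp).2.2⟩
    · exact f.2 p hp q hq
  · exact Finset.subset_insert _ _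

/-- The inverse partial isomorphism. -/
def PIso.inv (f : PIso x col) : PIso x col := ⟨f.1.image Prod.swap, by
  intro p hp q hq
  rw [Finset.mem_image] at hp hq
  obtain ⟨p', hp', rfl⟩ := hp
  obtain ⟨q', hq', rfl⟩ := hq
  obtain ⟨h1, h2, h3⟩ := f.2 p' hp' q' hq'
  exact ⟨h1.symm, fun h => (h2 (fun e => h (h1.1 e))).symm, h3.symm⟩⟩

lemma PIso.mem_inv {f : PIso x col} {a b : ℤ} : (a, b) ∈ f.inv.1 ↔ (b, a) ∈ f.1 := by
  simp only [PIso.inv, Finset.mem_image, Prod.exists, Prod.swap_prod_mk, Prod.mk.injEq]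
  constructor
  · rintro ⟨c, d, h, rfl, rfl⟩; exact h
  · intro h; exact ⟨b, a, h, rfl, rfl⟩

lemma back (h : ColExt x col) (f : PIso x col) (b : ℤ) : ∃ g : PIso x col, f ≤ g ∧
    ∃ a, (a, b) ∈ g.1 := by
  obtain ⟨g, hfg, a, ha⟩ := forth h f.inv b
  refine ⟨g.inv, ?_, a, PIso.mem_inv.2 ha⟩
  intro p hp
  have : (p.2, p.1) ∈ g.1 := hfg (PIso.mem_inv.2 hp)
  exact PIso.mem_inv.2 this

/-- A coloured graph with the coloured extension property has a nontrivial automorphism. -/
lemma exists_aut (h : ColExt x col) : ∃ σ : ℤ ≃ ℤ, σ 0 ≠ 0 ∧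
    (∀ n m, n ≠ m → x s(n, m) = x s(σ n, σ m)) ∧ ∀ n, col (σ n) = col n := by
  classical
  obtain ⟨b0, hb0, hc0, -⟩ := h 0 {0} ∅
  have hb0' : b0 ≠ 0 := by simpa using hb0
  let p0 : PIso x col := ⟨{(0, b0)}, by
    intro p hp q hq
    rw [Finset.mem_singleton] at hp hq
    subst hp; subst hq
    exact ⟨by simp, by simp, hc0.symm⟩⟩
  let 𝒟 : ℤ ⊕ ℤ → Order.Cofinal (PIso x col) := fun i => match i with
    | .inl a => ⟨{g | ∃ b, (a, b) ∈ g.1}, fun f => by
        obtain ⟨g, h1, h2⟩ := forth h f a; exact ⟨g, h2, h1⟩⟩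
    | .inr b => ⟨{g | ∃ a, (a, b) ∈ g.1}, fun f => by
        obtain ⟨g, h1, h2⟩ := back h f b; exact ⟨g, h2, h1⟩⟩
  let J := Order.idealOfCofinals p0 𝒟
  have hf : ∀ a, ∃ b, ∃ g ∈ J, (a, b) ∈ g.1 := by
    intro a
    obtain ⟨g, ⟨b, hb⟩, hg⟩ := Order.cofinal_meets_idealOfCofinals p0 𝒟 (Sum.inl a)
    exact ⟨b, g, hg, hb⟩
  have hb : ∀ b, ∃ a, ∃ g ∈ J, (a, b) ∈ g.1 := by
    intro b
    obtain ⟨g, ⟨a, ha⟩, hg⟩ := Order.cofinal_meets_idealOfCofinals p0 𝒟 (Sum.inr b)
    exact ⟨a, g, hg, ha⟩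
  have two : ∀ {a b a' b' : ℤ} {g g' : PIso x col}, g ∈ J → g' ∈ J → (a, b) ∈ g.1 →
      (a', b') ∈ g'.1 → (a = a' ↔ b = b') ∧ (a ≠ a' → x s(a, a') = x s(b, b')) ∧
        col a = col b := by
    intro a b a' b' g g' hg hg' h1 h2
    obtain ⟨k, -, hk1, hk2⟩ := J.directed g hg g' hg'
    exact k.2 _ (hk1 h1) _ (hk2 h2)
  choose F hF using hf
  choose B hB using hb
  choose gF gFJ gF1 using hF
  choose gB gBJ gB1 using hB
  let σ : ℤ ≃ ℤ :=
    { toFun := F
      invFun := B
      left_inv := fun a => (two (gBJ _) (gFJ _) (gB1 (F a)) (gF1 a)).1.2 rfl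
      right_inv := fun b => ((two (gFJ _) (gBJ _) (gF1 (B b)) (gB1 b)).1.1 rfl) }
  have h0 : p0 ∈ J := Order.mem_idealOfCofinals p0 𝒟
  refine ⟨σ, ?_, ?_, ?_⟩
  · have : b0 = F 0 := (two h0 (gFJ 0) (Finset.mem_singleton_self _) (gF1 0)).1.1 rfl
    change F 0 ≠ 0
    rw [← this]; exact hb0'
  · intro n m hnm
    exact (two (gFJ n) (gFJ m) (gF1 n) (gF1 m)).2.1 hnm
  · intro n
    exact (two (gFJ n) (gFJ n) (gF1 n) (gF1 n)).2.2.symm

end BF

/-! ### Density -/

/-- `e` only involves integers of absolute value at most `M`. -/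
def Bd (M : ℤ) (e : Sym2 ℤ) : Prop := ∀ z ∈ e, -M ≤ z ∧ z ≤ M

lemma exists_bd (S : Finset (Sym2 ℤ)) : ∃ M, 0 ≤ M ∧ ∀ e ∈ S, Bd M e := by
  classical
  induction S using Finset.induction_on with
  | empty => exact ⟨0, le_rfl, by simp⟩
  | insert e S he ih =>
    obtain ⟨M, hM0, hM⟩ := ih
    induction e using Sym2.ind with
    | _ i j =>
      refine ⟨M + |i| + |j|, by positivity, ?_⟩
      intro e' he'
      rw [Finset.mem_insert] at he'
      have hi := neg_abs_le i
      have hi' := le_abs_self i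
      have hj := neg_abs_le j
      have hj' := le_abs_self j
      have hi0 := abs_nonneg i
      have hj0 := abs_nonneg j
      rcases he' with rfl | he'
      · intro z hz
        rw [Sym2.mem_iff] at hz
        rcases hz with rfl | rfl <;> constructor <;> linarith
      · intro z hz
        have := hM e' he' z hz
        constructor <;> linarith [this.1, this.2]

/-- Basic neighbourhoods. -/
lemma basic_nhd {U : Set Y} (hU : IsOpen U) {z : Y} (hz : z ∈ U) :
    ∃ T : Finset (Sym2 ℤ), ∀ y : Y, (∀ e ∈ T, y e = z e) → y ∈ U := by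
  rw [isOpen_pi_iff] at hU
  obtain ⟨T, u, hu, hsub⟩ := hU z hz
  refine ⟨T, fun y hy => hsub ?_⟩
  intro e he
  rw [hy e he]
  exact (hu e he).2

/-- The set where the extension property for `(U, F, A)` holds. -/
def Hit (U : Set Y) (F A : Finset ℤ) : Set Y :=
  {y | ∃ n, n ∉ F ∧ sh n y ∈ U ∧ ∀ z ∈ F, (y s(z, n) = true ↔ z ∈ A)}

lemma isOpen_Hit {U : Set Y} (hU : IsOpen U) (F A : Finset ℤ) : IsOpen (Hit U F A) := by
  have e1 : Hit U F A = ⋃ n : ℤ, {y | n ∉ F ∧ sh n y ∈ U ∧
      ∀ z ∈ F, (y s(z, n) = true ↔ z ∈ A)} := by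
    ext y; simp [Hit]
  rw [e1]
  refine isOpen_iUnion fun n => ?_
  by_cases hn : n ∈ F
  · simp [hn]
  · have e2 : {y : Y | n ∉ F ∧ sh n y ∈ U ∧ ∀ z ∈ F, (y s(z, n) = true ↔ z ∈ A)} =
        (sh n ⁻¹' U) ∩ ⋂ z ∈ F, {y : Y | y s(z, n) = true ↔ z ∈ A} := by
      ext y; simp [hn]
    rw [e2]
    refine (hU.preimage (continuous_sh n)).inter (isOpen_biInter_finset fun z _ => ?_)
    by_cases hz : z ∈ A
    · have : {y : Y | y s(z, n) = true ↔ z ∈ A} = (fun y : Y => y s(z, n)) ⁻¹' {true} := by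
        ext y; simp [hz]
      rw [this]
      exact (isOpen_discrete _).preimage (continuous_apply _)
    · have : {y : Y | y s(z, n) = true ↔ z ∈ A} = (fun y : Y => y s(z, n)) ⁻¹' {false} := by
        ext y; simp [hz]
      rw [this]
      exact (isOpen_discrete _).preimage (continuous_apply _)

lemma dense_Hit {U : Set Y} (hU : IsOpen U) (hne : U.Nonempty) (F A : Finset ℤ) :
    Dense (Hit U F A) := by
  classical
  rw [dense_iff_inter_open]
  rintro V hV ⟨x, hx⟩
  obtain ⟨z0, hz0⟩ := hne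
  obtain ⟨S, hS⟩ := basic_nhd hV hx
  obtain ⟨T, hT⟩ := basic_nhd hU hz0
  obtain ⟨M1, hM1, hb1⟩ := exists_bd S
  obtain ⟨M2, hM2, hb2⟩ := exists_bd T
  obtain ⟨M3, hM3, hb3⟩ := exists_bd (F.image fun z => s(z, z))
  set M := M1 + M2 + M3 with hM
  set n : ℤ := 2 * M + 1 with hn
  have hFb : ∀ z ∈ F, -M ≤ z ∧ z ≤ M := by
    intro z hz
    have := hb3 s(z, z) (Finset.mem_image_of_mem _ hz) z (by simp)
    constructor <;> linarith [this.1, this.2]
  let y : Y := fun e => if e.map (· + -n) ∈ T then z0 (e.map (· + -n))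
    else if h : ∃ z ∈ F, e = s(z, n) then decide (h.choose ∈ A) else x e
  have hinj : ∀ z ∈ F, ∀ z' ∈ F, s(z, n) = s(z', n) → z = z' := by
    intro z _ z' _ h
    rw [Sym2.eq_iff] at h
    rcases h with h | h
    · exact h.1
    · rw [h.1, h.2]
  refine ⟨y, hS y ?_, n, ?_, hT _ ?_, ?_⟩
  · -- `y` agrees with `x` on `S`
    intro e he
    have hbe := hb1 e he
    induction e using Sym2.ind with
    | _ i j =>
      have hi := hbe i (by simp)
      have hj := hbe j (by simp)
      change (if (s(i, j) : Sym2 ℤ).map (· + -n) ∈ T then _ else if h : _ then _ else _) = _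
      rw [if_neg, dif_neg]
      · rintro ⟨z, hz, hz'⟩
        rw [Sym2.eq_iff] at hz'
        rcases hz' with h | h
        · have := h.2; linarith [hj.2]
        · have := h.1; linarith [hi.2]
      · intro hmem
        have := hb2 _ hmem (i + -n) (by simp)
        linarith [this.1, hi.2]
  · intro hmem
    linarith [(hFb n hmem).2]
  · -- `n • y` agrees with `z0` on `T`
    intro e he
    change y (e.map (· + n)) = z0 e
    have e1 : (e.map (· + n)).map (· + -n) = e := by
      induction e using Sym2.ind with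
      | _ i j => simp
    change (if (e.map (· + n)).map (· + -n) ∈ T then _ else _) = _
    rw [e1, if_pos he]
  · intro z hz
    have hzb := hFb z hz
    have h1 : ¬ (s(z, n) : Sym2 ℤ).map (· + -n) ∈ T := by
      intro hmem
      have := hb2 _ hmem (z + -n) (by simp)
      linarith [this.1, hzb.2]
    have h2 : ∃ z' ∈ F, (s(z, n) : Sym2 ℤ) = s(z', n) := ⟨z, hz, rfl⟩
    have h3 : y s(z, n) = decide (h2.choose ∈ A) := by
      change (if (s(z, n) : Sym2 ℤ).map (· + -n) ∈ T then _ else _) = _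
      rw [if_neg h1, dif_pos h2]
    have h4 : h2.choose = z := (hinj _ h2.choose_spec.1 _ hz h2.choose_spec.2.symm)
    rw [h3, h4, decide_eq_true_iff]

lemma residual_Hit {U : Set Y} (hU : IsOpen U) (hne : U.Nonempty) (F A : Finset ℤ) :
    Hit U F A ∈ residual Y :=
  residual_of_dense_open (isOpen_Hit hU F A) (dense_Hit hU hne F A)

lemma residual_X : XSet ∈ residual Y := by
  classical
  have h1 : ∀ᶠ x in residual Y, ∀ F A : Finset ℤ, x ∈ Hit univ F A :=
    eventually_countable_forall.2 fun F => eventually_countable_forall.2 fun A =>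
      residual_Hit isOpen_univ univ_nonempty F A
  -- freeness
  have h2 : ∀ᶠ x in residual Y, ∀ n : ℤ, n ≠ 0 → sh n x ≠ x := by
    rw [eventually_countable_forall]
    intro n
    by_cases hn : n = 0
    · simp [hn]
    · have key : {x : Y | sh n x = x}ᶜ ∈ residual Y := by
        refine residual_of_dense_open
          (isClosed_eq (continuous_sh n) continuous_id).isOpen_compl ?_
        rw [dense_iff_inter_open]
        rintro V hV ⟨x, hx⟩
        obtain ⟨S, hS⟩ := basic_nhd hV hx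
        obtain ⟨M, hM, hb⟩ := exists_bd S
        -- change a far away coordinate
        let y : Y := fun e => if e = s(M + 1, M + 1) then !(x s(M + 1 + n, M + 1 + n))
          else x e
        refine ⟨y, hS y ?_, ?_⟩
        swap
        · intro hy
          have := congrFun hy s(M + 1, M + 1)
          rw [sh_mk] at this
          have h3 : (s(M + 1 + n, M + 1 + n) : Sym2 ℤ) ≠ s(M + 1, M + 1) := by
            rw [Ne, Sym2.eq_iff]; omega
          simp only [y, if_neg h3, if_true] at this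
          simp at this
        · intro e he
          have h4 : e ≠ s(M + 1, M + 1) := by
            rintro rfl
            have := hb _ he (M + 1) (by simp)
            linarith [this.2]
          simp only [y, if_neg h4]
      filter_upwards [key] with x hx _ using hx
  filter_upwards [h1, h2] with x hx1 hx2
  refine ⟨hx2, fun F A => ?_⟩
  obtain ⟨n, hn, -, h⟩ := hx1 F A
  exact ⟨n, hn, h⟩

/-- **Generic orbits.** For each Borel colouring `c` with countably many colours some component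
has the coloured extension property. -/
lemma exists_generic {I : Type*} [Countable I] [MeasurableSpace I] [MeasurableSingletonClass I]
    (c : X → I) (hc : Measurable c) :
    ∃ x : X, ColExt (x : Y) (fun n => c (pt x n)) := by
  classical
  let C : I → Set Y := fun k => Subtype.val '' (c ⁻¹' {k})
  have hC : ∀ k, MeasurableSet (C k) := fun k =>
    measurableSet_XSet.subtype_image (hc (measurableSet_singleton k))
  choose U hUo hU using fun k => (hC k).residualEq_isOpen
  have hCU : ∀ᶠ x in residual Y, ∀ k n, (sh n x ∈ C k ↔ sh n x ∈ U k) := by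
    rw [eventually_countable_forall]
    intro k
    rw [eventually_countable_forall]
    intro n
    have h1 : ∀ᶠ x in residual Y, (x ∈ C k ↔ x ∈ U k) := by
      filter_upwards [hU k] with x hx
      exact hx.to_iff
    have h2 : Tendsto (sh n) (residual Y) (residual Y) := by
      have := tendsto_residual_of_isOpenMap (shHomeo n).continuous (shHomeo n).isOpenMap
      exact this
    exact h2.eventually h1
  have hH : ∀ᶠ x in residual Y, ∀ k, (U k).Nonempty → ∀ F A, x ∈ Hit (U k) F A := by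
    rw [eventually_countable_forall]
    intro k
    by_cases hk : (U k).Nonempty
    · simp only [hk, true_imp_iff]
      exact eventually_countable_forall.2 fun F => eventually_countable_forall.2 fun A =>
        residual_Hit (hUo k) hk F A
    · simp [hk]
  have hX : ∀ᶠ x in residual Y, x ∈ XSet := residual_X
  obtain ⟨x, ⟨hx1, hx2⟩, hx3⟩ := (dense_of_mem_residual ((hCU.and hH).and hX)).nonempty
  refine ⟨⟨x, hx3⟩, ?_⟩
  intro m F A
  set x' : X := ⟨x, hx3⟩
  have hmem : ∀ n k, sh n x ∈ C k ↔ c (pt x' n) = k := by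
    intro n k
    constructor
    · rintro ⟨y, hy, hyx⟩
      have : y = pt x' n := Subtype.ext hyx
      rw [← this]; exact hy
    · intro h
      exact ⟨pt x' n, h, rfl⟩
  have h1 : sh m x ∈ U (c (pt x' m)) := (hx1 _ m).1 ((hmem m _).2 rfl)
  obtain ⟨n, hn, hnU, hF⟩ := hx2 (c (pt x' m)) ⟨_, h1⟩ F A
  exact ⟨n, hn, (hmem n _).1 ((hx1 _ n).2 hnU), hF⟩

/-- No Borel colouring with countably many colours is distinguishing. -/
theorem not_distinguishing {I : Type*} [Countable I] [MeasurableSpace I]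
    [MeasurableSingletonClass I] (c : X → I) (hc : Measurable c) : ¬ Distinguishing G c := by
  classical
  obtain ⟨x, hx⟩ := exists_generic c hc
  obtain ⟨σ, hσ0, hσ, hσc⟩ := exists_aut hx
  let p : X → Prop := fun y => ∃ n, y = pt x n
  let f : ℤ ≃ Subtype p := Equiv.ofBijective (fun n => ⟨pt x n, n, rfl⟩)
    ⟨fun n m h => pt_inj x (congrArg Subtype.val h), by
      rintro ⟨y, n, rfl⟩; exact ⟨n, rfl⟩⟩
  have hf : ∀ n, (f n : X) = pt x n := fun n => rfl
  let ψ : Equiv.Perm X := Equiv.Perm.extendDomain σ f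
  have hψ1 : ∀ n, ψ (pt x n) = pt x (σ n) := by
    intro n
    rw [← hf, ← hf]
    exact Equiv.Perm.extendDomain_apply_image σ f n
  have hψ2 : ∀ y, ¬ p y → ψ y = y := fun y hy =>
    Equiv.Perm.extendDomain_apply_not_subtype σ f hy
  have hout : ∀ y, ¬ p y → ∀ n, ¬ G.Adj (pt x n) y := by
    intro y hy n h
    obtain ⟨k, rfl⟩ := adj_orbit h
    exact hy ⟨k + n, by rw [pt_pt]⟩
  let φ : G ≃g G := ⟨ψ, by
    intro y z
    by_cases hy : p y
    · obtain ⟨n, rfl⟩ := hy
      by_cases hz : p z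
      · obtain ⟨m, rfl⟩ := hz
        rw [hψ1, hψ1, adj_pt, adj_pt]
        by_cases hnm : n = m
        · simp [hnm]
        · rw [← hσ n m hnm]
          simp [hnm]
      · rw [hψ1, hψ2 z hz]
        exact iff_of_false (hout z hz _) (hout z hz _)
    · by_cases hz : p z
      · obtain ⟨m, rfl⟩ := hz
        rw [hψ1, hψ2 y hy]
        exact iff_of_false (fun h => hout y hy _ h.symm) (fun h => hout y hy _ h.symm)
      · rw [hψ2 y hy, hψ2 z hz]⟩
  intro hd
  obtain ⟨y, hy⟩ := hd φ ⟨pt x 0, by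
    change ψ (pt x 0) ≠ pt x 0
    rw [hψ1]
    exact fun h => hσ0 (pt_inj x h)⟩
  apply hy
  change c y = c (ψ y)
  by_cases hp : p y
  · obtain ⟨n, rfl⟩ := hp
    rw [hψ1]
    exact (hσc n).symm
  · rw [hψ2 y hp]

end Pool.Agent.X224.BD
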