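import Mathlib

/-!
# Generic graphs on the integers up to translation
-/

namespace Pool.Agent.X224.BD

/-- Codes of graphs with vertex set `ℤ` (the diagonal coordinates are ignored by adjacency). -/
abbrev Y : Type := Sym2 ℤ → Bool

instance : Countable (Sym2 ℤ) := inferInstanceAs (Countable (Quot _))

/-- Translation. -/
def sh (n : ℤ) (x : Y) : Y := fun e => x (e.map (· + n))

@[simp] lemma sh_mk (n : ℤ) (x : Y) (i j : ℤ) : sh n x s(i, j) = x s(i + n, j + n) := rfl

lemma sh_sh (n m : ℤ) (x : Y) : sh n (sh m x) = sh (n + m) x := by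
  funext e
  induction e using Sym2.ind with
  | _ i j => simp [add_assoc]

lemma sh_zero (x : Y) : sh 0 x = x := by
  funext e
  induction e using Sym2.ind with
  | _ i j => simp

lemma continuous_sh (n : ℤ) : Continuous (sh n) :=
  continuous_pi fun e => continuous_apply (e.map (· + n))

/-- Translation as a homeomorphism. -/
def shHomeo (n : ℤ) : Y ≃ₜ Y where
  toFun := sh n
  invFun := sh (-n)
  left_inv x := by rw [sh_sh]; simp [sh_zero]
  right_inv x := by rw [sh_sh]; simp [sh_zero]
  continuous_toFun := continuous_sh n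
  continuous_invFun := continuous_sh (-n)

/-- The extension property of the Rado graph. -/
def Rado (x : Y) : Prop :=
  ∀ F A : Finset ℤ, ∃ n, n ∉ F ∧ ∀ z ∈ F, (x s(z, n) = true ↔ z ∈ A)

/-- No nontrivial translation fixes `x`. -/
def Free (x : Y) : Prop := ∀ n : ℤ, n ≠ 0 → sh n x ≠ x

/-- The vertex set of the Borel graph. -/
def XSet : Set Y := {x | Free x ∧ Rado x}

lemma Rado.ext {x : Y} (h : Rado x) (F : Finset ℤ) (t : ℤ → Bool) :
    ∃ n, n ∉ F ∧ ∀ z ∈ F, x s(z, n) = t z := by
  classical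
  obtain ⟨n, hn, hF⟩ := h F (F.filter (fun z => t z = true))
  refine ⟨n, hn, fun z hz => ?_⟩
  have := hF z hz
  rw [Finset.mem_filter] at this
  rw [Bool.eq_iff_iff]
  tauto

lemma sh_inj {x : Y} (h : Free x) {n m : ℤ} (e : sh n x = sh m x) : n = m := by
  by_contra hne
  refine h (n - m) (sub_ne_zero.2 hne) ?_
  have := congrArg (sh (-m)) e
  rw [sh_sh, sh_sh] at this
  rw [neg_add_cancel, sh_zero] at this
  rw [show n - m = -m + n by ring]
  exact this

lemma sh_mem {x : Y} (h : x ∈ XSet) (m : ℤ) : sh m x ∈ XSet := by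
  classical
  refine ⟨fun n hn e => ?_, fun F A => ?_⟩
  · rw [sh_sh] at e
    have := sh_inj h.1 e
    omega
  · obtain ⟨n, hn, hF⟩ := h.2 (F.image (· + m)) (A.image (· + m))
    refine ⟨n - m, fun hmem => hn ?_, fun z hz => ?_⟩
    · exact Finset.mem_image.2 ⟨n - m, hmem, by ring⟩
    · have := hF (z + m) (Finset.mem_image_of_mem _ hz)
      rw [sh_mk, sub_add_cancel, this]
      simp

lemma measurableSet_XSet : MeasurableSet XSet := by
  have h1 : ∀ n : ℤ, MeasurableSet {x : Y | sh n x ≠ x} := fun n =>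
    (isClosed_eq (continuous_sh n) continuous_id).measurableSet.compl
  have h2 : ∀ (e : Sym2 ℤ), MeasurableSet {x : Y | x e = true} := fun e =>
    (measurable_pi_apply e : Measurable fun x : Y => x e) (measurableSet_singleton true)
  have h3 : ∀ (e : Sym2 ℤ) (p : Prop), MeasurableSet {x : Y | x e = true ↔ p} := by
    intro e p
    by_cases hp : p
    · simpa [hp] using h2 e
    · have : {x : Y | x e = true ↔ p} = {x : Y | x e = true}ᶜ := by
        ext x; simp [hp]
      rw [this]
      exact (h2 e).compl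
  have e1 : XSet = (⋂ n : ℤ, {x : Y | n ≠ 0 → sh n x ≠ x}) ∩
      ⋂ F : Finset ℤ, ⋂ A : Finset ℤ, ⋃ n : ℤ,
        {x : Y | n ∉ F ∧ ∀ z ∈ F, (x s(z, n) = true ↔ z ∈ A)} := by
    ext x
    simp only [XSet, Free, Rado, Set.mem_inter_iff, Set.mem_iInter, Set.mem_iUnion,
      Set.mem_ofPred_eq]
  rw [e1]
  refine MeasurableSet.inter (MeasurableSet.iInter fun n => ?_)
    (MeasurableSet.iInter fun F => MeasurableSet.iInter fun A => MeasurableSet.iUnion fun n => ?_)
  · by_cases hn : n = 0
    · simp [hn]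
    · simpa [hn] using h1 n
  · by_cases hn : n ∈ F
    · simp [hn]
    · have : {x : Y | n ∉ F ∧ ∀ z ∈ F, (x s(z, n) = true ↔ z ∈ A)} =
          ⋂ z ∈ F, {x : Y | x s(z, n) = true ↔ z ∈ A} := by
        ext x; simp [hn]
      rw [this]
      exact Finset.measurableSet_biInter _ fun z _ => h3 _ _

/-- The vertex set. -/
abbrev X : Type := {x : Y // x ∈ XSet}

instance : StandardBorelSpace X := measurableSet_XSet.standardBorel

/-- The `n`-th vertex of the component of `x`. -/
def pt (x : X) (n : ℤ) : X := ⟨sh n x, sh_mem x.2 n⟩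

lemma pt_inj (x : X) {n m : ℤ} (e : pt x n = pt x m) : n = m :=
  sh_inj x.2.1 (congrArg Subtype.val e)

lemma pt_zero (x : X) : pt x 0 = x := Subtype.ext (sh_zero _)

lemma pt_pt (x : X) (n m : ℤ) : pt (pt x n) m = pt x (m + n) := Subtype.ext (sh_sh _ _ _)

/-- The Borel graph: `x` is adjacent to `n • x` iff `0` is adjacent to `n` in the graph `x`. -/
def G : SimpleGraph X where
  Adj x y := ∃ n : ℤ, n ≠ 0 ∧ y = pt x n ∧ (x : Y) s(0, n) = true
  symm := ⟨fun x y => by
    rintro ⟨n, hn, rfl, h⟩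
    refine ⟨-n, neg_ne_zero.2 hn, ?_, ?_⟩
    · rw [pt_pt, neg_add_cancel, pt_zero]
    · change sh n (x : Y) s(0, -n) = true
      rw [sh_mk, zero_add, neg_add_cancel, Sym2.eq_swap]
      exact h⟩
  loopless := ⟨by
    rintro x ⟨n, hn, h, -⟩
    have : pt x 0 = pt x n := by rw [pt_zero]; exact h
    exact hn (pt_inj x this).symm⟩

lemma adj_pt (x : X) (n m : ℤ) : G.Adj (pt x n) (pt x m) ↔ n ≠ m ∧ (x : Y) s(n, m) = true := by
  constructor
  · rintro ⟨k, hk, h1, h2⟩
    rw [pt_pt] at h1
    have := pt_inj x h1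
    subst this
    refine ⟨by omega, ?_⟩
    change sh n (x : Y) s(0, k) = true at h2
    rwa [sh_mk, zero_add] at h2
  · rintro ⟨hne, h⟩
    refine ⟨m - n, by omega, ?_, ?_⟩
    · rw [pt_pt]; congr 1; omega
    · change sh n (x : Y) s(0, m - n) = true
      rw [sh_mk, zero_add, sub_add_cancel]
      exact h

lemma adj_orbit {x y : X} (h : G.Adj x y) : ∃ n, y = pt x n := by
  obtain ⟨n, -, h, -⟩ := h
  exact ⟨n, h⟩

lemma measurable_sh (n : ℤ) : Measurable (sh n) := (continuous_sh n).measurable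

lemma measurableSet_G : MeasurableSet {p : X × X | G.Adj p.1 p.2} := by
  have e1 : {p : X × X | G.Adj p.1 p.2} =
      ⋃ n : ℤ, {p : X × X | n ≠ 0 ∧ (p.2 : Y) = sh n (p.1 : Y) ∧ (p.1 : Y) s(0, n) = true} := by
    ext p
    simp only [G, Set.mem_iUnion, Set.mem_ofPred_eq, pt, Subtype.ext_iff]
  rw [e1]
  refine MeasurableSet.iUnion fun n => ?_
  by_cases hn : n = 0
  · simp [hn]
  · have : {p : X × X | n ≠ 0 ∧ (p.2 : Y) = sh n (p.1 : Y) ∧ (p.1 : Y) s(0, n) = true} =
        {p : X × X | (p.2 : Y) = sh n (p.1 : Y)} ∩ {p : X × X | (p.1 : Y) s(0, n) = true} := by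
      ext p; simp [hn]
    rw [this]
    refine MeasurableSet.inter ?_ ?_
    · exact measurableSet_eq_fun (measurable_subtype_coe.comp measurable_snd)
        ((measurable_sh n).comp (measurable_subtype_coe.comp measurable_fst))
    · have : Measurable fun p : X × X => (p.1 : Y) s(0, n) :=
        (measurable_pi_apply _).comp (measurable_subtype_coe.comp measurable_fst)
      exact this (measurableSet_singleton true)

/-- Two vertices of a component have a common neighbour. -/
lemma common (x : X) (n m : ℤ) : ∃ y, G.Adj (pt x n) y ∧ G.Adj (pt x m) y := by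
  classical
  obtain ⟨k, hk, h⟩ := x.2.2 {n, m} {n, m}
  have h1 := h n (by simp)
  have h2 := h m (by simp)
  simp only [Finset.mem_insert, Finset.mem_singleton, not_or] at hk
  refine ⟨pt x k, (adj_pt x n k).2 ⟨fun e => hk.1 e.symm, ?_⟩,
    (adj_pt x m k).2 ⟨fun e => hk.2 e.symm, ?_⟩⟩
  · rw [h1]; simp
  · rw [h2]; simp

/-- `c` is distinguishing for the graph `H`: every nontrivial automorphism changes a colour. -/
def Distinguishing {V : Type*} {I : Type*} (H : SimpleGraph V) (c : V → I) : Prop :=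
  ∀ φ : H ≃g H, (∃ x, φ x ≠ x) → ∃ x, c x ≠ c (φ x)

end Pool.Agent.X224.BD
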