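import Pool.Agent.X224.BD.Basic

/-!
# Three colours suffice
-/

namespace Pool.Agent.X224.BD

/-- A coding frame for `x`: an induced ray `v`, a vertex `w` whose adjacency to the ray codes `s`,
and every vertex off the ray is determined by its adjacency to the ray. -/
structure Frame (x : Y) (s : ℕ → Bool) (w : ℤ) (v : ℕ → ℤ) : Prop where
  inj : Function.Injective v
  ray : ∀ i j, i ≠ j → (x s(v i, v j) = true ↔ i = j + 1 ∨ j = i + 1)
  off : ∀ i, w ≠ v i
  code : ∀ i, x s(w, v i) = s i
  sep : ∀ u u', u ≠ u' → (∀ i, u ≠ v i) → (∀ i, u' ≠ v i) → ∃ i, x s(u, v i) ≠ x s(u', v i)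

/-- The step of the construction of the ray. -/
lemma step {x : Y} (h : Rado x) (w : ℤ) (b : Bool) (u u' : ℤ) (l : List ℤ) :
    ∃ n : ℤ, n ∉ l ∧ n ≠ w ∧ n ≠ u ∧ n ≠ u' ∧ (l.Nodup → w ∉ l →
      (∀ z ∈ l, (x s(z, n) = true ↔ l.head? = some z)) ∧ x s(w, n) = b ∧
      (u ≠ u' → u ≠ w → u ∉ l → u' ∉ l → x s(u, n) ≠ x s(u', n))) := by
  classical
  obtain ⟨n, hn, hF⟩ := h.ext (l.toFinset ∪ {w, u, u'}) (fun z =>
    if z ∈ l then decide (l.head? = some z) else if z = w then b
    else if z = u then !(if u' = w then b else false) else false)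
  simp only [Finset.mem_union, List.mem_toFinset, Finset.mem_insert, Finset.mem_singleton,
    not_or] at hn
  refine ⟨n, hn.1, hn.2.1, hn.2.2.1, hn.2.2.2, fun _ hw => ⟨fun z hz => ?_, ?_, ?_⟩⟩
  · rw [hF z (by simp [hz])]
    simp [hz]
  · rw [hF w (by simp)]
    simp [hw]
  · intro h1 h2 h3 h4
    rw [hF u (by simp), hF u' (by simp)]
    simp only [h3, h4, h2, if_false, if_true]
    by_cases h5 : u' = w
    · simp [h5]
    · simp [h5, Ne.symm h1]

lemma exists_frame {x : Y} (h : Rado x) (s : ℕ → Bool) : ∃ w v, Frame x s w v := by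
  classical
  obtain ⟨e, he⟩ := exists_surjective_nat (ℤ × ℤ)
  let w : ℤ := 0
  choose nx h1 h2 h3 h4 h5 using fun l : List ℤ => step h w (s l.length) (e l.length).1
    (e l.length).2 l
  let L : ℕ → List ℤ := fun i => Nat.rec [] (fun _ l => nx l :: l) i
  have L0 : L 0 = [] := rfl
  have LS : ∀ i, L (i + 1) = nx (L i) :: L i := fun i => rfl
  have len : ∀ i, (L i).length = i := by
    intro i; induction i with
    | zero => rfl
    | succ i ih => rw [LS, List.length_cons, ih]
  have nd : ∀ i, (L i).Nodup := by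
    intro i; induction i with
    | zero => simp [L0]
    | succ i ih => rw [LS, List.nodup_cons]; exact ⟨h1 _, ih⟩
  have wn : ∀ i, w ∉ L i := by
    intro i; induction i with
    | zero => simp [L0]
    | succ i ih =>
      rw [LS, List.mem_cons, not_or]
      exact ⟨(h2 _).symm, ih⟩
  have mem : ∀ i j, j < i → nx (L j) ∈ L i := by
    intro i; induction i with
    | zero => intro j hj; omega
    | succ i ih =>
      intro j hj
      rw [LS, List.mem_cons]
      rcases Nat.lt_succ_iff_lt_or_eq.1 hj with hj | hj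
      · exact Or.inr (ih j hj)
      · exact Or.inl (by rw [hj])
  have mem' : ∀ i z, z ∈ L i → ∃ j, z = nx (L j) := by
    intro i; induction i with
    | zero => intro z hz; simp [L0] at hz
    | succ i ih =>
      intro z hz
      rw [LS, List.mem_cons] at hz
      rcases hz with hz | hz
      · exact ⟨i, hz⟩
      · exact ih z hz
  have lt_ne : ∀ i j, j < i → nx (L j) ≠ nx (L i) := by
    intro i j hj hc
    exact h1 (L i) (hc ▸ mem i j hj)
  have inj : Function.Injective fun i => nx (L i) := by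
    intro i j hij
    rcases lt_trichotomy i j with hlt | heq | hlt
    · exact absurd hij (lt_ne j i hlt)
    · exact heq
    · exact absurd hij.symm (lt_ne i j hlt)
  have ray1 : ∀ i j, j < i → (x s(nx (L j), nx (L i)) = true ↔ i = j + 1) := by
    intro i j hj
    rw [((h5 (L i)) (nd i) (wn i)).1 _ (mem i j hj)]
    obtain ⟨k, rfl⟩ : ∃ k, i = k + 1 := ⟨i - 1, by omega⟩
    rw [LS, List.head?_cons, Option.some_inj]
    constructor
    · intro hk
      have : k = j := inj hk
      omega
    · intro hk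
      have : k = j := by omega
      rw [this]
  refine ⟨w, fun i => nx (L i), inj, ?_, fun i => (h2 _).symm, ?_, ?_⟩
  · intro i j hij
    rcases lt_or_gt_of_ne hij with hlt | hlt
    · rw [ray1 j i hlt]; omega
    · rw [Sym2.eq_swap, ray1 i j hlt]; omega
  · intro i
    have := ((h5 (L i)) (nd i) (wn i)).2.1
    rwa [len] at this
  · intro u u' hne hu hu'
    -- it suffices to treat `u ≠ w`
    have key : ∀ u u', u ≠ u' → u ≠ w → (∀ i, u ≠ nx (L i)) → (∀ i, u' ≠ nx (L i)) →
        ∃ i, x s(u, nx (L i)) ≠ x s(u', nx (L i)) := by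
      intro u u' hne huw hu hu'
      obtain ⟨i, hi⟩ := he (u, u')
      refine ⟨i, ?_⟩
      have h6 := ((h5 (L i)) (nd i) (wn i)).2.2
      rw [len, hi] at h6
      refine h6 hne huw (fun hm => ?_) (fun hm => ?_)
      · obtain ⟨j, hj⟩ := mem' i u hm
        exact hu j hj
      · obtain ⟨j, hj⟩ := mem' i u' hm
        exact hu' j hj
    by_cases huw : u = w
    · have hu'w : u' ≠ w := fun h => hne (huw.trans h.symm)
      obtain ⟨i, hi⟩ := key u' u hne.symm hu'w hu' hu
      exact ⟨i, hi.symm⟩
    · exact key u u' hne huw hu hu'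

open Classical in
/-- The colouring defined by a frame. -/
noncomputable def col (w : ℤ) (v : ℕ → ℤ) (z : ℤ) : Fin 3 :=
  if ∃ i, z = v i then 0 else if z = w then 1 else 2

lemma col_eq_zero {w : ℤ} {v : ℕ → ℤ} {z : ℤ} : col w v z = 0 ↔ ∃ i, z = v i := by
  unfold col
  split_ifs <;> simp_all

lemma col_eq_one {x : Y} {s : ℕ → Bool} {w : ℤ} {v : ℕ → ℤ} (F : Frame x s w v) {z : ℤ} :
    col w v z = 1 ↔ z = w := by
  unfold col
  split_ifs with h1 h2
  · constructor
    · intro h; exact absurd h (by decide)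
    · rintro rfl
      obtain ⟨i, hi⟩ := h1
      exact absurd hi (F.off i)
  · simp [h2]
  · constructor
    · intro h; exact absurd h (by decide)
    · intro h; exact absurd h h2

/-- A coloured isomorphism between framed graphs respects the frames. -/
lemma frame_iso {x x' : Y} {s s' : ℕ → Bool} {w w' : ℤ} {v v' : ℕ → ℤ} (F : Frame x s w v)
    (F' : Frame x' s' w' v') (σ : ℤ ≃ ℤ)
    (hadj : ∀ n m, n ≠ m → (x s(n, m) = true ↔ x' s(σ n, σ m) = true))
    (hcol : ∀ n, col w v n = col w' v' (σ n)) :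
    s = s' ∧ ∀ i, σ (v i) = v' i := by
  classical
  have h1 : ∀ i, ∃ j, σ (v i) = v' j := by
    intro i
    rw [← col_eq_zero (w := w'), ← hcol, col_eq_zero]
    exact ⟨i, rfl⟩
  have h2 : ∀ j, ∃ i, σ (v i) = v' j := by
    intro j
    have : col w' v' (σ (σ.symm (v' j))) = 0 := by
      rw [Equiv.apply_symm_apply]
      exact col_eq_zero.2 ⟨j, rfl⟩
    rw [← hcol, col_eq_zero] at this
    obtain ⟨i, hi⟩ := this
    exact ⟨i, by rw [← hi, Equiv.apply_symm_apply]⟩
  choose τ hτ using h1
  have τinj : Function.Injective τ := by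
    intro i j hij
    apply F.inj
    apply σ.injective
    rw [hτ, hτ, hij]
  have τsurj : Function.Surjective τ := by
    intro j
    obtain ⟨i, hi⟩ := h2 j
    refine ⟨i, F'.inj ?_⟩
    rw [← hτ, hi]
  have τadj : ∀ i j, i ≠ j → ((i = j + 1 ∨ j = i + 1) ↔ (τ i = τ j + 1 ∨ τ j = τ i + 1)) := by
    intro i j hij
    rw [← F.ray i j hij, ← F'.ray (τ i) (τ j) (fun h => hij (τinj h)), ← hτ, ← hτ]
    exact hadj _ _ (fun h => hij (F.inj h))
  have τ0 : τ 0 = 0 := by
    by_contra h0
    obtain ⟨a, ha⟩ := τsurj (τ 0 + 1)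
    obtain ⟨b, hb⟩ := τsurj (τ 0 - 1)
    have ha0 : a ≠ 0 := by rintro rfl; omega
    have hb0 : b ≠ 0 := by rintro rfl; omega
    have h3 := (τadj a 0 ha0).2 (by omega)
    have h4 := (τadj b 0 hb0).2 (by omega)
    have : a = b := by omega
    rw [this] at ha
    omega
  have τid : ∀ i, ∀ j ≤ i, τ j = j := by
    intro i
    induction i with
    | zero =>
      intro j hj
      have : j = 0 := by omega
      rw [this, τ0]
    | succ i ih =>
      intro j hj
      by_cases hji : j ≤ i
      · exact ih j hji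
      · have hj' : j = i + 1 := by omega
        subst hj'
        have h3 := (τadj (i + 1) i (by omega)).1 (Or.inl rfl)
        rw [ih i le_rfl] at h3
        rcases h3 with h3 | h3
        · exact h3
        · exfalso
          have h4 := ih (τ (i + 1)) (by omega)
          have h5 := τinj h4
          omega
  have hv : ∀ i, σ (v i) = v' i := by
    intro i
    rw [hτ, τid i i le_rfl]
  have hw : σ w = w' := by
    rw [← col_eq_one F', ← hcol, col_eq_one F]
  refine ⟨?_, hv⟩
  funext i
  rw [← F.code, ← F'.code, Bool.eq_iff_iff, hadj _ _ (F.off i), hw, hv]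

lemma frame_rigid {x : Y} {s : ℕ → Bool} {w : ℤ} {v : ℕ → ℤ} (F : Frame x s w v) (σ : ℤ ≃ ℤ)
    (hadj : ∀ n m, n ≠ m → (x s(n, m) = true ↔ x s(σ n, σ m) = true))
    (hcol : ∀ n, col w v n = col w v (σ n)) : ∀ n, σ n = n := by
  have hv := (frame_iso F F σ hadj hcol).2
  intro n
  by_cases h0 : ∃ i, n = v i
  · obtain ⟨i, rfl⟩ := h0
    exact hv i
  · by_contra hne
    have h1 : ∀ i, n ≠ v i := fun i h => h0 ⟨i, h⟩
    have h2 : ∀ i, σ n ≠ v i := by
      intro i h
      have : col w v (σ n) = 0 := col_eq_zero.2 ⟨i, h⟩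
      rw [← hcol, col_eq_zero] at this
      exact h0 this
    obtain ⟨i, hi⟩ := F.sep n (σ n) (Ne.symm hne) h1 h2
    apply hi
    rw [Bool.eq_iff_iff, hadj _ _ (h1 i), hv]

/-- Two elements in the same component. -/
def orb : Setoid X where
  r x y := ∃ n, y = pt x n
  iseqv := {
    refl := fun x => ⟨0, (pt_zero x).symm⟩
    symm := by
      rintro x y ⟨n, rfl⟩
      exact ⟨-n, by rw [pt_pt, neg_add_cancel, pt_zero]⟩
    trans := by
      rintro x y z ⟨n, rfl⟩ ⟨m, rfl⟩
      exact ⟨m + n, by rw [pt_pt]⟩ }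

/-- A representative of the component. -/
noncomputable def rep (x : X) : X := (Quotient.mk orb x).out

lemma rep_spec (x : X) : ∃ n, x = pt (rep x) n := by
  have : orb.r (rep x) x := Quotient.mk_out (s := orb) x
  exact this

/-- The index of `x` relative to its representative. -/
noncomputable def idx (x : X) : ℤ := (rep_spec x).choose

lemma pt_idx (x : X) : pt (rep x) (idx x) = x := (rep_spec x).choose_spec.symm

lemma rep_eq {x y : X} (h : ∃ n, y = pt x n) : rep x = rep y := by
  unfold rep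
  rw [show Quotient.mk orb x = Quotient.mk orb y from Quotient.sound h]

lemma rep_pt (x : X) (n : ℤ) : rep (pt x n) = rep x := (rep_eq ⟨n, rfl⟩).symm

lemma rep_rep (x : X) : rep (rep x) = rep x := by
  conv_rhs => rw [← pt_idx x, rep_pt]

lemma idx_pt_rep (x : X) (n : ℤ) : idx (pt (rep x) n) = n := by
  have h := pt_idx (pt (rep x) n)
  rw [rep_pt, rep_rep] at h
  exact pt_inj _ h

lemma rep_adj {x y : X} (h : G.Adj x y) : rep x = rep y := rep_eq (adj_orbit h)

/-- Automorphisms respect components. -/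
lemma rep_aut (φ : G ≃g G) (x : X) (n m : ℤ) : rep (φ (pt x n)) = rep (φ (pt x m)) := by
  obtain ⟨y, h1, h2⟩ := common x n m
  rw [rep_adj (φ.map_rel_iff.2 h1), rep_adj (φ.map_rel_iff.2 h2)]

/-- Three colours suffice. -/
theorem three_colours : ∃ c : X → Fin 3, Distinguishing G c := by
  classical
  obtain ⟨g, hg⟩ := exists_surjective_nat (Sym2 ℤ)
  choose w v F using fun x : X => exists_frame x.2.2 (fun i => (x : Y) (g i))
  refine ⟨fun x => col (w (rep x)) (v (rep x)) (idx x), ?_⟩
  rintro φ ⟨x0, hx0⟩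
  by_contra hc
  push Not at hc
  apply hx0
  set r := rep x0 with hr
  set r' := rep (φ r) with hr'
  have hrr : rep r = r := by rw [hr, rep_rep]
  have hr'r' : rep r' = r' := by rw [hr', rep_rep]
  have repφ : ∀ n, rep (φ (pt r n)) = r' := by
    intro n
    rw [rep_aut φ r n 0, pt_zero]
  have repφ' : ∀ n, rep (φ.symm (pt r' n)) = r := by
    intro n
    rw [rep_aut φ.symm r' n (idx (φ r))]
    have : pt r' (idx (φ r)) = φ r := pt_idx (φ r)
    rw [this, RelIso.symm_apply_apply, hrr]
  let σ : ℤ ≃ ℤ :=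
    { toFun := fun n => idx (φ (pt r n))
      invFun := fun n => idx (φ.symm (pt r' n))
      left_inv := by
        intro n
        have h1 : pt r' (idx (φ (pt r n))) = φ (pt r n) := by
          rw [← repφ n]; exact pt_idx _
        change idx (φ.symm (pt r' (idx (φ (pt r n))))) = n
        rw [h1, RelIso.symm_apply_apply, ← hrr, idx_pt_rep]
      right_inv := by
        intro n
        have h1 : pt r (idx (φ.symm (pt r' n))) = φ.symm (pt r' n) := by
          rw [← repφ' n]; exact pt_idx _
        change idx (φ (pt r (idx (φ.symm (pt r' n))))) = n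
        rw [h1, RelIso.apply_symm_apply, ← hr'r', idx_pt_rep] }
  have hσ : ∀ n, φ (pt r n) = pt r' (σ n) := by
    intro n
    change φ (pt r n) = pt r' (idx (φ (pt r n)))
    rw [← repφ n]; exact (pt_idx _).symm
  have hadj : ∀ n m, n ≠ m → ((r : Y) s(n, m) = true ↔ (r' : Y) s(σ n, σ m) = true) := by
    intro n m hnm
    have h1 : G.Adj (pt r n) (pt r m) ↔ G.Adj (φ (pt r n)) (φ (pt r m)) :=
      φ.map_rel_iff.symm
    rw [hσ, hσ, adj_pt, adj_pt] at h1
    have h2 : σ n ≠ σ m := fun h => hnm (σ.injective h)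
    simpa [hnm, h2] using h1
  have hcol : ∀ n, col (w r) (v r) n = col (w r') (v r') (σ n) := by
    intro n
    have h1 := hc (pt r n)
    have h2 : rep (pt r n) = r := by rw [rep_pt, hrr]
    have h3 : idx (pt r n) = n := by
      conv_lhs => rw [← hrr]
      exact idx_pt_rep _ _
    simp only [h2, h3, repφ n] at h1
    exact h1
  obtain ⟨hs, -⟩ := frame_iso (F r) (F r') σ hadj hcol
  have hrr' : r = r' := by
    apply Subtype.ext
    funext e
    obtain ⟨i, rfl⟩ := hg e
    exact congrFun hs i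
  rw [← hrr'] at hadj hcol hσ
  have hid := frame_rigid (F r) σ hadj hcol
  have hx : x0 = pt r (idx x0) := (pt_idx x0).symm
  rw [hx, hσ, hid]

end Pool.Agent.X224.BD
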